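import Mathlib
import Pool.Agent.H32.Alt

namespace Pool.Agent.Results.MP_573991_co.Counter

open Pool.Agent.H32.Alt

/-- The Kneser graph on the `k`-subsets of an `n`-set. -/
def KG (n k : ℕ) : SimpleGraph {s : Finset (Fin n) // s.card = k} where
  Adj s t := s ≠ t ∧ Disjoint s.1 t.1
  symm := ⟨fun _ _ h => ⟨h.1.symm, h.2.symm⟩⟩
  loopless := ⟨fun _ h => h.1 rfl⟩

/-- `D` is an orientation of `G`: every edge gets exactly one direction. -/
def IsOrientation {V : Type} (G : SimpleGraph V) (D : V → V → Prop) : Prop :=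
  (∀ u v, D u v → G.Adj u v) ∧ ∀ u v, G.Adj u v → (D u v ↔ ¬ D v u)

/-- `c` lists the vertices of a cycle of length `m` of `G` in cyclic order. -/
def IsCyc {V : Type} (G : SimpleGraph V) (m : ℕ) (c : ZMod m → V) : Prop :=
  3 ≤ m ∧ Function.Injective c ∧ ∀ i, G.Adj (c i) (c (i + 1))

/-- A shortest odd cycle. -/
def ShortestOdd {V : Type} (G : SimpleGraph V) (m : ℕ) (c : ZMod m → V) : Prop :=
  IsCyc G m c ∧ Odd m ∧ ∀ (m' : ℕ) (c' : ZMod m' → V), IsCyc G m' c' → Odd m' → m ≤ m'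

/-- Exactly one vertex of the cycle has positive in-degree and positive out-degree in the cycle. -/
def Alternating {V : Type} (D : V → V → Prop) (m : ℕ) (c : ZMod m → V) : Prop :=
  ∃! i : ZMod m, (D (c (i - 1)) (c i) ∨ D (c (i + 1)) (c i)) ∧
    (D (c i) (c (i - 1)) ∨ D (c i) (c (i + 1)))

noncomputable def Vx (a : ℕ) : {s : Finset (Fin 8) // s.card = 3} :=
  if h : (toF a).card = 3 then ⟨toF a, h⟩ else ⟨{0, 1, 2}, by decide⟩

theorem Vx_val {a : ℕ} (ha : a ∈ vs) : (Vx a).1 = toF a := by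
  simp [Vx, card_toF a ha]

theorem Vx_ne {a b : ℕ} (ha : a ∈ vs) (hb : b ∈ vs) (h : a ≠ b) : Vx a ≠ Vx b := by
  intro e
  apply h
  apply (pair_toF a ha b hb).2
  rw [← Vx_val ha, ← Vx_val hb, e]

theorem Vx_adj {a b : ℕ} (ha : a ∈ vs) (hb : b ∈ vs) (h : a &&& b = 0) :
    (KG 8 3).Adj (Vx a) (Vx b) := by
  have hd : Disjoint (Vx a).1 (Vx b).1 := by
    rw [Vx_val ha, Vx_val hb]
    exact (pair_toF a ha b hb).1 h
  refine ⟨fun e => ?_, hd⟩
  rw [← e, disjoint_self] at hd
  have := (Vx a).2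
  rw [hd] at this
  simp at this

theorem no_tri (c : ZMod 3 → {s : Finset (Fin 8) // s.card = 3}) (h : IsCyc (KG 8 3) 3 c) : False := by
  have h0 := (h.2.2 0).2
  have h1 := (h.2.2 1).2
  have h2 := (h.2.2 2).2
  have e0 : (0 : ZMod 3) + 1 = 1 := by decide
  have e1 : (1 : ZMod 3) + 1 = 2 := by decide
  have e2 : (2 : ZMod 3) + 1 = 0 := by decide
  rw [e0] at h0
  rw [e1] at h1
  rw [e2] at h2
  have := Finset.card_le_univ ((c 0).1 ∪ (c 1).1 ∪ (c 2).1)
  rw [Finset.card_union_of_disjoint (Finset.disjoint_union_left.2 ⟨h2.symm, h1⟩),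
    Finset.card_union_of_disjoint h0, (c 0).2, (c 1).2, (c 2).2] at this
  simp at this

theorem result (D : {s : Finset (Fin 8) // s.card = 3} → {s : Finset (Fin 8) // s.card = 3} → Prop)
    (hD : IsOrientation (KG 8 3) D) :
    ∃ (m : ℕ) (c : ZMod m → {s : Finset (Fin 8) // s.card = 3}),
      ShortestOdd (KG 8 3) m c ∧ ¬ Alternating D m c := by
  by_contra hcon
  push Not at hcon
  refine unsat (fun a b => D (Vx a) (Vx b)) ?_ ?_
  · intro a b ha hb h
    have := hD.2 _ _ (Vx_adj ha hb h)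
    tauto
  · intro a b c d e hok m1 m2
    simp only [okCyc, Bool.and_eq_true, List.contains_iff_mem, beq_iff_eq, bne_iff_ne] at hok
    obtain ⟨⟨⟨⟨⟨⟨⟨⟨⟨⟨⟨⟨⟨⟨ha, hb⟩, hc⟩, hd⟩, he⟩, ab⟩, bc⟩, cd⟩, de⟩, ea⟩, ac⟩, ad⟩, bd⟩, be⟩, ce⟩ := hok
    have Aab := Vx_adj ha hb ab
    have Abc := Vx_adj hb hc bc
    have Acd := Vx_adj hc hd cd
    have Ade := Vx_adj hd he de
    have Aea := Vx_adj he ha ea
    have Nac := Vx_ne ha hc ac
    have Nad := Vx_ne ha hd ad
    have Nbd := Vx_ne hb hd bd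
    have Nbe := Vx_ne hb he be
    have Nce := Vx_ne hc he ce
    have Nab := Aab.ne
    have Nbc := Abc.ne
    have Ncd := Acd.ne
    have Nde := Ade.ne
    have Nea := Aea.ne
    let cy : ZMod 5 → {s : Finset (Fin 8) // s.card = 3} := (![Vx a, Vx b, Vx c, Vx d, Vx e] : Fin 5 → _)
    have hcy : ShortestOdd (KG 8 3) 5 cy := by
      refine ⟨⟨by norm_num, ?_, ?_⟩, by decide, ?_⟩
      · intro i j hij
        fin_cases i <;> fin_cases j <;> first
          | rfl
          | exact absurd hij (by assumption)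
          | exact absurd hij.symm (by assumption)
      · intro i
        fin_cases i
        · exact Aab
        · exact Abc
        · exact Acd
        · exact Ade
        · exact Aea
      · intro m' c' h' ho
        by_contra hlt
        have h3 := h'.1
        obtain ⟨k, hk⟩ := ho
        have : m' = 3 := by omega
        subst this
        exact no_tri c' h'
    obtain ⟨i, _, hi⟩ := hcon 5 cy hcy
    have q1 : (1 : ZMod 5) = i := by
      apply hi
      show (D (Vx a) (Vx b) ∨ D (Vx c) (Vx b)) ∧ (D (Vx b) (Vx a) ∨ D (Vx b) (Vx c))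
      unfold Mix at m1
      tauto
    rcases m2 with m2 | m2
    · have q2 : (2 : ZMod 5) = i := by
        apply hi
        show (D (Vx b) (Vx c) ∨ D (Vx d) (Vx c)) ∧ (D (Vx c) (Vx b) ∨ D (Vx c) (Vx d))
        unfold Mix at m2
        tauto
      exact absurd (q1.trans q2.symm) (by decide)
    · have q2 : (3 : ZMod 5) = i := by
        apply hi
        show (D (Vx c) (Vx d) ∨ D (Vx e) (Vx d)) ∧ (D (Vx d) (Vx c) ∨ D (Vx d) (Vx e))
        unfold Mix at m2
        tauto
      exact absurd (q1.trans q2.symm) (by decide)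

end Pool.Agent.Results.MP_573991_co.Counter
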